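import Pool.Agent.helper4.EC.Spec

set_option autoImplicit false

namespace Pool.Agent.helper4.EC

open Finset

universe u

theorem FI_tw {V W : Type*} {G : SimpleGraph V} {H : SimpleGraph W} (φ : G ≃g H) (k : ℕ) (w : ℕ → V) (h : TW G k w) :
    TW H k (fun i => φ (w i)) := by
  refine ⟨fun i hi => φ.map_adj_iff.2 (h.1 i hi), fun i hi => ⟨fun he => (h.2 i hi).1 (φ.injective he), fun hadj =>
    (h.2 i hi).2 (φ.map_adj_iff.1 hadj)⟩⟩

theorem FI_walk {V : Type*} {G : SimpleGraph V}
    (hnb : ∀ a b c, G.Adj a b → G.Adj a c → b ≠ c → G.Adj b c) :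
    ∀ {u v : V} (_ : G.Walk u v), u = v ∨ G.Adj u v := by
  intro u v p
  induction p with
  | nil => exact Or.inl rfl
  | @cons a b c hadj _ ih =>
    rcases ih with rfl | h
    · exact Or.inr hadj
    · by_cases he : a = c
      · exact Or.inl he
      · exact Or.inr (hnb b a c hadj.symm h he)

theorem FI (h1 : W2_stmt.{u}) (h2 : DI_stmt.{u}) (h3 : ST_stmt.{u}) : FI_stmt.{u} := by
  intro V _ _ G hconn hch hSB ⟨φ⟩
  have hchI : Chordal (iGraph G) := fun n hn => ⟨fun e => (hch n hn).elim (e.trans φ.toRelEmbedding)⟩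
  have hDF : DF G := by
    intro a b c d hab hac hbc had hbd hcd
    exact φ.symm.map_adj_iff.1 (h2 V G (φ.symm a) (φ.symm b) (φ.symm c) (φ.symm d) (φ.symm.map_adj_iff.2 hab)
      (φ.symm.map_adj_iff.2 hac) (φ.symm.map_adj_iff.2 hbc) (φ.symm.map_adj_iff.2 had) (φ.symm.map_adj_iff.2 hbd)
      (fun he => hcd (φ.symm.injective he)))
  have hSBI : SpreadBridges (iGraph G) := by
    intro a b c hab hac hbc
    rcases hSB (φ a) (φ b) (φ c) (φ.map_adj_iff.2 hab) (φ.map_adj_iff.2 hac) (fun he => hbc (φ.injective he)) with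
      ⟨t, ht1, ht2⟩ | ⟨t, ht1, ht2⟩
    · refine Or.inl ⟨φ.symm t, ?_, ?_⟩
      · rw [← φ.map_adj_iff, φ.apply_symm_apply]; exact ht1
      · rw [← φ.map_adj_iff, φ.apply_symm_apply]; exact ht2
    · refine Or.inr ⟨φ.symm t, ?_, ?_⟩
      · rw [← φ.map_adj_iff, φ.apply_symm_apply]; exact ht1
      · rw [← φ.map_adj_iff, φ.apply_symm_apply]; exact ht2
  have hno : ∀ w, ¬ TW G 2 w := by
    intro w0 hw0
    have hall : ∀ m : ℕ, ∃ k, m + 2 ≤ k ∧ ∃ w, TW G k w := by
      intro m
      induction m with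
      | zero => exact ⟨2, le_rfl, w0, hw0⟩
      | succ m ih =>
        obtain ⟨k, hk, w, hw⟩ := ih
        obtain ⟨k', rfl⟩ : ∃ k', k = k' + 1 := ⟨k - 1, by omega⟩
        obtain ⟨w', hw'⟩ := h3 V G hch hchI hDF hSBI k' (fun i => φ.symm (w i)) (FI_tw φ.symm _ w hw)
        exact ⟨3 * k' + 1, by omega, w', hw'⟩
    obtain ⟨k, hk, w, hw⟩ := hall (Fintype.card V)
    have := h1 V G hch k w hw
    omega
  have hnb : ∀ a b c, G.Adj a b → G.Adj a c → b ≠ c → G.Adj b c := by
    intro a b c hab hac hbc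
    by_contra hn
    apply hno (fun i => if i = 0 then b else if i = 1 then a else c)
    constructor
    · intro i hi
      rcases (by omega : i = 0 ∨ i = 1) with rfl | rfl
      · exact hab.symm
      · exact hac
    · intro i hi
      have : i = 0 := by omega
      subst this
      exact ⟨hbc, hn⟩
  ext u v
  rw [SimpleGraph.top_adj]
  constructor
  · intro h
    exact h.ne
  · intro hne
    obtain ⟨p⟩ := hconn.preconnected u v
    rcases FI_walk hnb p with h | h
    · exact absurd h hne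
    · exact h

end Pool.Agent.helper4.EC
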