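import Pool.Agent.helper4.EC.Spec

set_option autoImplicit false

namespace Pool.Agent.helper4.EC

open Finset

universe u

theorem LN : LN_stmt.{u} := by
  intro V _ G X x y z hy hz hyz
  obtain ⟨_, hyX, _, hyI⟩ := hy
  obtain ⟨_, _, _, hzI⟩ := hz
  have hyn : y ∉ insert z (X.erase x) := by
    rw [mem_insert]
    rintro (h | h)
    · exact hyz h
    · exact hyX (mem_of_mem_erase h)
  obtain ⟨u, hu, huy⟩ := hzI.1.2 y hyn
  rcases mem_insert.1 hu with rfl | hu
  · exact huy.symm
  · exact absurd huy (hyI.1.1 u (mem_insert_of_mem hu) y (mem_insert_self _ _))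

theorem DI (h1 : SA_stmt.{u}) (h2 : LN_stmt.{u}) (h3 : TR_stmt.{u}) : DI_stmt.{u} := by
  intro V _ G a b c d hab hac hbc had hbd hcd
  obtain ⟨x, y, hxy, hb⟩ := (h1 V G a b).1 hab
  obtain ⟨z, _, hz, hc⟩ := h3 V G a b c x y hxy hb hac.symm hbc.symm
  obtain ⟨t, _, ht, hd⟩ := h3 V G a b d x y hxy hb had.symm hbd.symm
  have hzt : z ≠ t := by
    rintro rfl
    exact hcd (Subtype.ext (hc.trans hd.symm))
  have hadj := h2 V G a.1 x z t hz ht hzt
  rw [h1 V G c d]
  have hze : z ∉ a.1.erase x := fun h => hz.2.1 (mem_of_mem_erase h)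
  have hce : c.1.erase z = a.1.erase x := by
    rw [hc, erase_insert hze]
  refine ⟨z, t, ⟨?_, ?_, hadj, ?_⟩, ?_⟩
  · rw [hc]
    exact mem_insert_self _ _
  · rw [hc, mem_insert]
    rintro (h | h)
    · exact hzt h.symm
    · exact ht.2.1 (mem_of_mem_erase h)
  · rw [hce]
    exact ht.2.2.2
  · rw [hce]
    exact hd

theorem W2 (h1 : W1_stmt.{u}) : W2_stmt.{u} := by
  intro V _ G hch k w hw
  have hne : ∀ i j, i < j → j ≤ k → w i ≠ w j := by
    intro i j hij hj
    rcases Nat.lt_or_ge (i + 1) j with h | h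
    · exact (h1 V G hch k w hw i j (by omega) hj).1
    · have : j = i + 1 := by omega
      subst this
      exact (hw.1 i (by omega)).ne
  have hinj : Function.Injective (fun i : Fin (k + 1) => w i.1) := by
    intro i j he
    by_contra hij
    have hij' : i.1 ≠ j.1 := fun h => hij (Fin.ext h)
    have hi := i.2
    have hj := j.2
    rcases Nat.lt_or_gt_of_ne hij' with h | h
    · exact hne i.1 j.1 h (by omega) he
    · exact hne j.1 i.1 h (by omega) he.symm
  have := Fintype.card_le_of_injective _ hinj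
  rw [Fintype.card_fin] at this
  omega

end Pool.Agent.helper4.EC
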